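import Pool.Agent.H95.NV.Targets1

set_option autoImplicit false

namespace Pool.Agent.H78.NV

open Pool.Agent.H95.NV NumberField
open Pool.Agent.H65.CM4 (Pl rv)

section

variable {k K : Type} [Field k] [NumberField k] [Field K] [NumberField K] [Algebra k K]

theorem w_sq (D b : 𝓞 k) (δ : K) (h : δ ^ 2 = -algebraMap k K (D : k)) :
    w b δ * w b δ = algebraMap k K (-(((b : k) ^ 2 + (D : k)) / 4)) +
      algebraMap k K (b : k) * w b δ := by
  unfold w
  rw [map_neg, map_div₀, map_add, map_pow]
  have h4 : algebraMap k K 4 = 4 := map_ofNat _ 4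
  rw [h4]
  linear_combination h / 4

theorem indep [IsTotallyReal k] (D b : 𝓞 k) (δ : K) (hD : TP D)
    (h : δ ^ 2 = -algebraMap k K (D : k)) (x y : k)
    (hxy : algebraMap k K x + algebraMap k K y * w b δ = 0) : x = 0 ∧ y = 0 := by
  have hinj : Function.Injective (algebraMap k K) := (algebraMap k K).injective
  have hy : y = 0 := by
    by_contra hy
    have hy' : algebraMap k K y ≠ 0 := fun h' => hy (hinj (h'.trans (map_zero _).symm))
    have h1 : δ = algebraMap k K (-2 * x / y - (b : k)) := by
      rw [map_sub, map_div₀, map_mul, map_neg]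
      have h2 : algebraMap k K 2 = 2 := map_ofNat _ 2
      rw [h2]
      unfold w at hxy
      have h3 : (2 : K) ≠ 0 := two_ne_zero
      field_simp at hxy ⊢
      linear_combination hxy
    obtain ⟨r, hr⟩ : ∃ r : k, δ = algebraMap k K r := ⟨_, h1⟩
    rw [hr, ← map_pow, ← map_neg] at h
    have h4 : r ^ 2 = -(D : k) := hinj h
    obtain ⟨v⟩ : Nonempty (Pl k) := inferInstance
    have h5 : (rv v r) ^ 2 = -rv v (D : k) := by rw [← map_pow, h4, map_neg]
    have h6 := hD v
    nlinarith [sq_nonneg (rv v r)]
  subst hy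
  rw [map_zero, zero_mul, add_zero] at hxy
  exact ⟨hinj (hxy.trans (map_zero _).symm), rfl⟩

end

theorem pf_COO : T_COO := by
  intro k K _ _ _ _ _ _ _ D b δ hD h
  have hli : LinearIndependent k ![(1 : K), w b δ] := by
    rw [LinearIndependent.pair_iff]
    intro s t hst
    rw [Algebra.smul_def, Algebra.smul_def, mul_one] at hst
    exact indep D b δ hD h s t hst
  have hrank : Module.finrank k K = 2 := Algebra.IsQuadraticExtension.finrank_eq_two k K
  let B : Module.Basis (Fin 2) k K :=
    basisOfLinearIndependentOfCardEqFinrank hli (by rw [hrank]; rfl)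
  have hB0 : B 0 = 1 := by simp [B]
  have hB1 : B 1 = w b δ := by simp [B]
  have hrepr : ∀ x y : k, ∀ i, B.repr (algebraMap k K x + algebraMap k K y * w b δ) i =
      ![x, y] i := by
    intro x y i
    have h1 : algebraMap k K x + algebraMap k K y * w b δ = x • B 0 + y • B 1 := by
      rw [hB0, hB1, Algebra.smul_def, Algebra.smul_def, mul_one]
    rw [h1, map_add, map_smul, map_smul, B.repr_self, B.repr_self]
    fin_cases i <;> simp
  have hmul : ∀ x y : k, Algebra.leftMulMatrix B (algebraMap k K x + algebraMap k K y * w b δ) =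
      !![x, -(((b : k) ^ 2 + (D : k)) / 4 * y); y, x + (b : k) * y] := by
    intro x y
    ext i j
    rw [Algebra.leftMulMatrix_eq_repr_mul]
    have h0 : (algebraMap k K x + algebraMap k K y * w b δ) * B 0 =
        algebraMap k K x + algebraMap k K y * w b δ := by rw [hB0, mul_one]
    have h1 : (algebraMap k K x + algebraMap k K y * w b δ) * B 1 =
        algebraMap k K (-(((b : k) ^ 2 + (D : k)) / 4 * y)) +
          algebraMap k K (x + (b : k) * y) * w b δ := by
      rw [hB1, add_mul, mul_assoc, w_sq D b δ h]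
      simp only [map_neg, map_mul, map_add]
      ring
    fin_cases j
    · have := hrepr x y i
      simp only [Fin.zero_eta, Fin.isValue, h0, this]
      fin_cases i <;> rfl
    · have := hrepr (-(((b : k) ^ 2 + (D : k)) / 4 * y)) (x + (b : k) * y) i
      simp only [Fin.mk_one, Fin.isValue, h1, this]
      fin_cases i <;> rfl
  refine ⟨?_, fun x y hxy => indep D b δ hD h x y hxy, ?_, ?_⟩
  · intro z
    refine ⟨B.repr z 0, B.repr z 1, ?_⟩
    conv_lhs => rw [← B.sum_repr z]
    rw [Fin.sum_univ_two, hB0, hB1, Algebra.smul_def, Algebra.smul_def, mul_one]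
  · intro x y
    rw [Algebra.norm_eq_matrix_det B, hmul, Matrix.det_fin_two_of]
    ring
  · intro x y
    rw [Algebra.trace_eq_matrix_trace B, hmul, Matrix.trace_fin_two_of]
    ring

end Pool.Agent.H78.NV
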